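import Mathlib
import Pool.Agent.Work.MP_7d59ed_nt.Final

set_option autoImplicit false

namespace Pool.Agent.Results.MP_7d59ed_nt.GrowthRate

open Filter Topology
open Pool.Agent.Work.MP_7d59ed_nt (h)

/-- The limit of `|h_n|^(1/n)` exists; its value `g` lies in `(1.1522, 1.1524)`, and
`g^n / (2 n^3) ≤ |h_n| ≤ n^2 g^n` for every `n ≥ 5`. -/
theorem result :
    ∃ g : ℝ, 1.1522 < g ∧ g < 1.1524 ∧
      Tendsto (fun n : ℕ => |(h n : ℝ)| ^ (1 / (n : ℝ))) atTop (𝓝 g) ∧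
      ∀ n : ℕ, 5 ≤ n → g ^ n / (2 * (n : ℝ) ^ 3) ≤ |(h n : ℝ)| ∧
        |(h n : ℝ)| ≤ (n : ℝ) ^ 2 * g ^ n := by
  obtain ⟨g, h1, h2, h3⟩ := Pool.Agent.Work.MP_7d59ed_nt.exists_g
  exact ⟨g, h1, h2, Pool.Agent.Work.MP_7d59ed_nt.tendsto_root _ g (by linarith) h3, h3⟩

end Pool.Agent.Results.MP_7d59ed_nt.GrowthRate
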